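import Mathlib.Data.Int.ModEq
import Mathlib.Data.Set.Finite.Basic
import Mathlib.Data.Set.Card
import Mathlib.Logic.Relation
import Mathlib.Tactic

set_option autoImplicit false

/-!
# Finitely many ergodic sets although the map is not surjective

For `T(x) = 2 ⌊x / 3⌋ + 1`, that is `d = 3`, `m₀ = m₁ = m₂ = 2`, `(r₀, r₁, r₂) = (-3, -1, 1)`, the
image `T(ℤ)` is the set of the odd integers, and the only ergodic sets are `ℤ` (odd moduli) and the
set of the odd integers (even moduli).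
-/

namespace Pool.Agent.Results.MP_c1c042_nt.FiniteNotSurjective

/-- The generalized Collatz map `T(x) = (m_i x - r_i) / d` for `x ≡ i (mod d)`, `0 ≤ i < d`. -/
def T (d : ℕ) (m r : ℕ → ℤ) (x : ℤ) : ℤ := (m (x % d).toNat * x - r (x % d).toNat) / d

/-- The data `(d, m, r)` define a generalized Collatz mapping of relatively prime type. -/
def RelPrimeType (d : ℕ) (m r : ℕ → ℤ) : Prop :=
  2 ≤ d ∧ (∀ i < d, m i ≠ 0) ∧ (∀ i < d, r i ≡ i * m i [ZMOD d]) ∧
    IsCoprime (∏ i ∈ Finset.range d, m i) (d : ℤ)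

/-- The congruence class of `j` modulo `M`. -/
def B (j : ℤ) (M : ℕ) : Set ℤ := {x | x ≡ j [ZMOD M]}

/-- `S` is a union of congruence classes modulo `M`. -/
def Periodic (S : Set ℤ) (M : ℕ) : Prop := 1 ≤ M ∧ ∀ x : ℤ, x ∈ S ↔ x + M ∈ S

open Classical in
/-- The finitely additive measure: `μ(S) = r / M` if `S` is a disjoint union of `r` classes modulo
`M` (the smallest such `M` is taken; sets which are not unions of classes get the value `0`). -/
noncomputable def mu (S : Set ℤ) : ℚ :=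
  if h : ∃ M : ℕ, Periodic S M then
    (Set.ncard (S ∩ Set.Ico (0 : ℤ) (Nat.find h : ℤ)) : ℚ) / (Nat.find h : ℚ)
  else 0

/-- The transition probabilities `q_{ij}(M) = μ(B(i, M) ∩ T⁻¹(B(j, M))) / μ(B(i, M))`. -/
noncomputable def q (d : ℕ) (m r : ℕ → ℤ) (M : ℕ) (i j : ℤ) : ℚ :=
  mu (B i M ∩ T d m r ⁻¹' B j M) / mu (B i M)

/-- A transition of positive probability. -/
def Step (d : ℕ) (m r : ℕ → ℤ) (M : ℕ) (i j : ℤ) : Prop :=
  0 ≤ j ∧ j < M ∧ 0 < q d m r M i j

/-- `C` is a positive recurrent class, i.e. a closed communicating class, of the finite chain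
`Q_T(M)` on the states `0, 1, …, M - 1`. -/
def IsClass (d : ℕ) (m r : ℕ → ℤ) (M : ℕ) (C : Set ℤ) : Prop :=
  C.Nonempty ∧ C ⊆ Set.Ico (0 : ℤ) M ∧ (∀ i ∈ C, ∀ j, Step d m r M i j → j ∈ C) ∧
    ∀ i ∈ C, ∀ j ∈ C, Relation.ReflTransGen (Step d m r M) i j

/-- The ergodic sets `S_C`, for all moduli `M ≥ 2`. -/
def ergodicSets (d : ℕ) (m r : ℕ → ℤ) : Set (Set ℤ) :=
  {S | ∃ (M : ℕ) (C : Set ℤ), 2 ≤ M ∧ IsClass d m r M C ∧ S = ⋃ j ∈ C, B j M}

/-! ### positivity of the measure -/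

theorem periodic_mul {S : Set ℤ} {M : ℕ} (h : Periodic S M) (x : ℤ) (k : ℤ) :
    x ∈ S ↔ x + k * M ∈ S := by
  induction k using Int.induction_on with
  | zero => simp
  | succ n ih =>
    rw [ih, h.2 (x + n * M)]
    ring_nf
  | pred n ih =>
    rw [ih, h.2 (x + (-(n : ℤ) - 1) * M)]
    ring_nf

theorem mu_pos {S : Set ℤ} {M : ℕ} (h : Periodic S M) (hS : S.Nonempty) : 0 < mu S := by
  classical
  have hex : ∃ M : ℕ, Periodic S M := ⟨M, h⟩
  unfold mu
  rw [dif_pos hex]
  set N := Nat.find hex with hN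
  have hP : Periodic S N := Nat.find_spec hex
  have hN0 : 0 < N := hP.1
  obtain ⟨x, hx⟩ := hS
  have hfin : (S ∩ Set.Ico (0 : ℤ) (N : ℤ)).Finite := (Set.finite_Ico _ _).subset Set.inter_subset_right
  have hNz : (0 : ℤ) < (N : ℤ) := by exact_mod_cast hN0
  have hne : (S ∩ Set.Ico (0 : ℤ) (N : ℤ)).Nonempty := by
    refine ⟨x % N, ?_, ?_, ?_⟩
    · have := (periodic_mul hP x (-(x / N))).1 hx
      have e : x + -(x / N) * N = x % N := by
        have := Int.emod_add_mul_ediv x N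
        linarith
      rwa [e] at this
    · exact Int.emod_nonneg _ hNz.ne'
    · exact Int.emod_lt_of_pos _ hNz
  have h1 : 0 < (S ∩ Set.Ico (0 : ℤ) (N : ℤ)).ncard := (Set.ncard_pos hfin).2 hne
  have h2 : (0 : ℚ) < (N : ℚ) := by exact_mod_cast hN0
  have h3 : (0 : ℚ) < ((S ∩ Set.Ico (0 : ℤ) (N : ℤ)).ncard : ℚ) := by exact_mod_cast h1
  exact div_pos h3 h2

theorem mu_empty : mu ∅ = 0 := by
  unfold mu
  split_ifs <;> simp

/-! ### the example -/

/-- the multipliers -/
def m0 : ℕ → ℤ := fun _ => 2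

/-- the constants -/
def r0 : ℕ → ℤ := fun i => if i = 0 then -3 else if i = 1 then -1 else 1

theorem T_eq (x : ℤ) : T 3 m0 r0 x = 2 * (x / 3) + 1 := by
  unfold T m0 r0
  have h : x % 3 = 0 ∨ x % 3 = 1 ∨ x % 3 = 2 := by omega
  push_cast
  rcases h with h | h | h <;> simp only [h] <;> norm_num <;> omega

theorem relPrime : RelPrimeType 3 m0 r0 := by
  refine ⟨by norm_num, fun i _ => by simp [m0], ?_, ?_⟩
  · intro i hi
    interval_cases i <;> simp [m0, r0] <;> decide
  · simp only [m0, Finset.prod_const, Finset.card_range]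
    rw [Int.isCoprime_iff_gcd_eq_one]
    decide

theorem periodic_step (i j : ℤ) (M : ℕ) (hM : 1 ≤ M) :
    Periodic (B i M ∩ T 3 m0 r0 ⁻¹' B j M) (3 * M) := by
  refine ⟨by omega, fun x => ?_⟩
  have e : T 3 m0 r0 (x + (3 * M : ℕ)) = T 3 m0 r0 x + 2 * M := by
    rw [T_eq, T_eq]; push_cast; omega
  have h1 : x + ((3 * M : ℕ) : ℤ) ≡ x [ZMOD M] := by
    rw [Int.modEq_iff_dvd]
    exact ⟨-3, by push_cast; ring⟩
  have h2 : T 3 m0 r0 x + 2 * M ≡ T 3 m0 r0 x [ZMOD M] := by
    rw [Int.modEq_iff_dvd]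
    exact ⟨-2, by ring⟩
  simp only [B, Set.mem_inter_iff, Set.mem_preimage]
  rw [e]
  constructor
  · rintro ⟨h3, h4⟩
    exact ⟨h1.trans h3, h2.trans h4⟩
  · rintro ⟨h3, h4⟩
    exact ⟨h1.symm.trans h3, h2.symm.trans h4⟩

theorem mu_B_pos (i : ℤ) (M : ℕ) (hM : 1 ≤ M) : 0 < mu (B i M) := by
  refine mu_pos (M := M) ⟨hM, fun x => ?_⟩ ⟨i, Int.ModEq.refl i⟩
  have h1 : x + (M : ℤ) ≡ x [ZMOD M] := by
    rw [Int.modEq_iff_dvd]
    exact ⟨-1, by ring⟩
  exact ⟨fun h => h1.trans h, fun h => h1.symm.trans h⟩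

/-- transitions of positive probability -/
theorem step_iff (M : ℕ) (hM : 1 ≤ M) (i j : ℤ) :
    Step 3 m0 r0 M i j ↔ 0 ≤ j ∧ j < M ∧ ∃ x : ℤ, x ≡ i [ZMOD M] ∧ T 3 m0 r0 x ≡ j [ZMOD M] := by
  unfold Step
  constructor
  · rintro ⟨h1, h2, h3⟩
    refine ⟨h1, h2, ?_⟩
    by_contra hno
    have he : B i M ∩ T 3 m0 r0 ⁻¹' B j M = ∅ := by
      rw [Set.eq_empty_iff_forall_notMem]
      rintro x ⟨hx1, hx2⟩
      exact hno ⟨x, hx1, hx2⟩
    unfold q at h3
    rw [he, mu_empty, zero_div] at h3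
    exact lt_irrefl _ h3
  · rintro ⟨h1, h2, x, hx1, hx2⟩
    refine ⟨h1, h2, ?_⟩
    exact div_pos (mu_pos (periodic_step i j M hM) ⟨x, hx1, hx2⟩) (mu_B_pos i M hM)

/-- the state of an integer -/
def st (M : ℕ) (x : ℤ) : ℤ := x % M

theorem st_step (M : ℕ) (hM : 1 ≤ M) (x : ℤ) : Step 3 m0 r0 M (st M x) (st M (T 3 m0 r0 x)) := by
  have hMz : (0 : ℤ) < M := by exact_mod_cast hM
  rw [step_iff M hM]
  exact ⟨Int.emod_nonneg _ hMz.ne', Int.emod_lt_of_pos _ hMz, x, (Int.mod_modEq _ _).symm,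
    (Int.mod_modEq _ _).symm⟩

theorem st_path (M : ℕ) (hM : 1 ≤ M) (x : ℤ) (k : ℕ) :
    Relation.ReflTransGen (Step 3 m0 r0 M) (st M x) (st M ((T 3 m0 r0)^[k] x)) := by
  induction k with
  | zero => exact Relation.ReflTransGen.refl
  | succ k ih =>
    rw [Function.iterate_succ_apply']
    exact ih.tail (st_step M hM _)

/-- long intervals are mapped to the same odd integer `2 w + 1`, `w` odd -/
theorem long_odd (w : ℤ) (hw : w % 2 = 1) (L : ℕ) : ∃ (k : ℕ) (a : ℤ),
    ∀ z : ℤ, a ≤ z → z ≤ a + (L + 1) → (T 3 m0 r0)^[k] (2 * z + 1) = 2 * w + 1 := by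
  induction L with
  | zero =>
    refine ⟨1, (3 * w - 1) / 2, fun z h1 h2 => ?_⟩
    rw [Function.iterate_one, T_eq]
    push_cast at h2
    omega
  | succ L ih =>
    obtain ⟨k, a, h⟩ := ih
    refine ⟨k + 1, 3 * a / 2, fun z h1 h2 => ?_⟩
    rw [Function.iterate_succ_apply, T_eq]
    push_cast at h2
    apply h <;> omega

/-- the same for all `w ≠ 0` -/
theorem long (w : ℤ) (hw : w ≠ 0) (L : ℕ) : ∃ (k : ℕ) (a : ℤ),
    ∀ z : ℤ, a ≤ z → z ≤ a + (L + 1) → (T 3 m0 r0)^[k] (2 * z + 1) = 2 * w + 1 := by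
  have key : ∀ (n : ℕ) (u : ℤ), u % 2 = 1 → ∃ (k : ℕ) (a : ℤ),
      ∀ z : ℤ, a ≤ z → z ≤ a + (L + 1) → (T 3 m0 r0)^[k] (2 * z + 1) = 2 * (2 ^ n * u) + 1 := by
    intro n
    induction n with
    | zero => intro u hu; simpa using long_odd u hu L
    | succ n ih =>
      intro u hu
      obtain ⟨k, a, h⟩ := ih (3 * u) (by omega)
      refine ⟨k + 1, a, fun z h1 h2 => ?_⟩
      rw [Function.iterate_succ_apply', h z h1 h2, T_eq]
      have : 2 * (2 ^ n * (3 * u)) + 1 = 3 * (2 ^ (n + 1) * u) + 1 := by ring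
      rw [this]
      omega
  obtain ⟨n, u, hu, rfl⟩ : ∃ (n : ℕ) (u : ℤ), u % 2 = 1 ∧ w = 2 ^ n * u := by
    have hfin : FiniteMultiplicity (2 : ℤ) w := Int.finiteMultiplicity_iff.2 ⟨by decide, hw⟩
    obtain ⟨u, e, hu⟩ := hfin.exists_eq_pow_mul_and_not_dvd
    exact ⟨_, u, by omega, e⟩
  exact key n u hu

/-- every odd class is reached from every odd class -/
theorem odd_reach (M : ℕ) (hM : 1 ≤ M) (x y : ℤ) (hx : x % 2 = 1) (hy : y % 2 = 1) :
    Relation.ReflTransGen (Step 3 m0 r0 M) (st M x) (st M y) := by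
  have hMz : (0 : ℤ) < M := by exact_mod_cast hM
  -- a representative `2 w + 1` of the class of `y` with `w ≠ 0`
  obtain ⟨w, hw, hwy⟩ : ∃ w : ℤ, w ≠ 0 ∧ st M (2 * w + 1) = st M y := by
    by_cases h0 : y / 2 = 0
    · refine ⟨y / 2 + M, by omega, ?_⟩
      unfold st
      have : 2 * (y / 2 + M) + 1 = y + 2 * M := by omega
      rw [this]
      simp
    · refine ⟨y / 2, h0, ?_⟩
      congr 1
      omega
  obtain ⟨k, a, h⟩ := long w hw M
  -- an element of the long interval in the class of `x`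
  obtain ⟨z, hz1, hz2, hzx⟩ : ∃ z : ℤ, a ≤ z ∧ z ≤ a + (M + 1) ∧ st M (2 * z + 1) = st M x := by
    refine ⟨a + (x / 2 - a) % M, ?_, ?_, ?_⟩
    · have := Int.emod_nonneg (x / 2 - a) hMz.ne'
      omega
    · have := Int.emod_lt_of_pos (x / 2 - a) hMz
      omega
    · unfold st
      have e : 2 * (a + (x / 2 - a) % M) + 1 = x + M * (-2 * ((x / 2 - a) / M)) := by
        have h1 := Int.emod_add_mul_ediv (x / 2 - a) M
        have h2 : (x / 2 - a) % M = (x / 2 - a) - M * ((x / 2 - a) / M) := by linarith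
        rw [h2]
        have h3 : x = 2 * (x / 2) + 1 := by omega
        linear_combination h3 - 2 * h3 + h3 + (1 : ℤ) * (-h3)
      rw [e, Int.add_mul_emod_self_left]
  have hp := st_path M hM (2 * z + 1) k
  rw [h z hz1 hz2, hzx, hwy] at hp
  exact hp

theorem st_of_lt {M : ℕ} {j : ℤ} (h0 : 0 ≤ j) (h1 : j < M) : st M j = j :=
  Int.emod_eq_of_lt h0 h1

/-- the ergodic sets of `T` -/
theorem ergodic_eq : ergodicSets 3 m0 r0 = {Set.univ, {x : ℤ | x % 2 = 1}} := by
  ext S
  simp only [Set.mem_insert_iff, Set.mem_singleton_iff]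
  have hTodd : ∀ x, T 3 m0 r0 x % 2 = 1 := fun x => by rw [T_eq]; omega
  -- every class contains an odd state, hence all classes of odd integers
  have hall : ∀ (M : ℕ) (C : Set ℤ), 1 ≤ M → IsClass 3 m0 r0 M C →
      ∀ y : ℤ, y % 2 = 1 → st M y ∈ C := by
    intro M C hM ⟨⟨i, hi⟩, hsub, hcl, hcom⟩ y hy
    have hii := hsub hi
    have h1 : st M (T 3 m0 r0 i) ∈ C := by
      apply hcl i hi
      have := st_step M hM i
      rwa [st_of_lt hii.1 hii.2] at this
    have hp := odd_reach M hM (T 3 m0 r0 i) y (hTodd i) hy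
    have hcl' : ∀ a b, Relation.ReflTransGen (Step 3 m0 r0 M) a b → a ∈ C → b ∈ C := by
      intro a b hab ha
      induction hab with
      | refl => exact ha
      | tail _ h ih => exact hcl _ ih _ h
    exact hcl' _ _ hp h1
  constructor
  · rintro ⟨M, C, hM, hC, rfl⟩
    have hM1 : 1 ≤ M := by omega
    have hMz : (0 : ℤ) < M := by exact_mod_cast hM1
    have h := hall M C hM1 hC
    rcases Nat.even_or_odd M with he | ho
    · right
      -- even modulus
      obtain ⟨N, hN⟩ := he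
      have hodd : ∀ j ∈ C, j % 2 = 1 := by
        intro j hj
        have hjj := hC.2.1 hj
        -- `j` is reached from an odd state by at least one step, or it is that state
        have h1 : st M 1 ∈ C := h 1 (by norm_num)
        have hr := hC.2.2.2 _ h1 j hj
        rcases Relation.ReflTransGen.cases_tail hr with h2 | ⟨c, -, h2⟩
        · rw [h2]
          unfold st
          have := Int.emod_add_mul_ediv 1 (M : ℤ)
          have h3 : (M : ℤ) = N + N := by exact_mod_cast hN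
          have h4 : (1 : ℤ) % M = 1 := Int.emod_eq_of_lt (by norm_num) (by omega)
          rw [h4]; norm_num
        · rw [step_iff M hM1] at h2
          obtain ⟨_, _, x, _, hx2⟩ := h2
          have h3 := hTodd x
          have h4 : (M : ℤ) = 2 * N := by
            have : (M : ℤ) = N + N := by exact_mod_cast hN
            linarith
          rw [h4] at hx2
          have h5 := Int.ModEq.of_mul_right (N : ℤ) hx2
          have h6 : T 3 m0 r0 x % 2 = j % 2 := h5
          omega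
      ext x
      simp only [Set.mem_iUnion, B, Set.mem_ofPred_eq, exists_prop]
      constructor
      · rintro ⟨j, hj, hx⟩
        have h4 : (M : ℤ) = 2 * N := by
          have : (M : ℤ) = N + N := by exact_mod_cast hN
          linarith
        rw [h4] at hx
        have h5 := Int.ModEq.of_mul_right (N : ℤ) hx
        have h6 : x % 2 = j % 2 := h5
        have := hodd j hj
        omega
      · intro hx
        exact ⟨st M x, h x hx, (Int.mod_modEq _ _).symm⟩
    · left
      rw [Set.eq_univ_iff_forall]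
      intro x
      simp only [Set.mem_iUnion, B, Set.mem_ofPred_eq, exists_prop]
      obtain ⟨N, hN⟩ := ho
      have h4 : (M : ℤ) = 2 * N + 1 := by exact_mod_cast hN
      rcases Int.emod_two_eq_zero_or_one x with hx | hx
      · refine ⟨st M (x + M), h _ (by omega), ?_⟩
        have h1 : x ≡ x + (M : ℤ) [ZMOD M] := by
          rw [Int.modEq_iff_dvd]; exact ⟨1, by ring⟩
        exact h1.trans (Int.mod_modEq _ _).symm
      · exact ⟨st M x, h x hx, (Int.mod_modEq _ _).symm⟩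
  · -- both sets occur
    have hcls : ∀ (M : ℕ), 2 ≤ M → IsClass 3 m0 r0 M (st M '' {x : ℤ | x % 2 = 1}) := by
      intro M hM
      have hM1 : 1 ≤ M := by omega
      have hMz : (0 : ℤ) < M := by exact_mod_cast hM1
      refine ⟨⟨_, 1, by norm_num, rfl⟩, ?_, ?_, ?_⟩
      · rintro _ ⟨x, -, rfl⟩
        exact ⟨Int.emod_nonneg _ hMz.ne', Int.emod_lt_of_pos _ hMz⟩
      · rintro _ ⟨x, -, rfl⟩ j hj
        rw [step_iff M hM1] at hj
        obtain ⟨h0, h1, y, hy1, hy2⟩ := hj
        refine ⟨T 3 m0 r0 y, hTodd y, ?_⟩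
        have h2 : T 3 m0 r0 y % M = j % M := hy2
        unfold st
        rw [h2, Int.emod_eq_of_lt h0 h1]
      · rintro _ ⟨x, hx, rfl⟩ _ ⟨y, hy, rfl⟩
        exact odd_reach M hM1 x y hx hy
    rintro (rfl | rfl)
    · refine ⟨3, _, by norm_num, hcls 3 (by norm_num), ?_⟩
      symm
      rw [Set.eq_univ_iff_forall]
      intro x
      simp only [Set.mem_iUnion, B, Set.mem_ofPred_eq, exists_prop]
      rcases Int.emod_two_eq_zero_or_one x with hx | hx
      · refine ⟨st 3 (x + 3), ⟨x + 3, by simp; omega, rfl⟩, ?_⟩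
        have h1 : x ≡ x + (3 : ℤ) [ZMOD (3 : ℕ)] := by
          rw [Int.modEq_iff_dvd]; exact ⟨1, by push_cast; ring⟩
        exact h1.trans (Int.mod_modEq _ _).symm
      · exact ⟨st 3 x, ⟨x, hx, rfl⟩, (Int.mod_modEq _ _).symm⟩
    · refine ⟨2, _, le_rfl, hcls 2 le_rfl, ?_⟩
      ext x
      simp only [Set.mem_iUnion, B, Set.mem_ofPred_eq, exists_prop]
      constructor
      · intro hx
        exact ⟨st 2 x, ⟨x, hx, rfl⟩, (Int.mod_modEq _ _).symm⟩
      · rintro ⟨_, ⟨y, hy, rfl⟩, hx⟩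
        have h1 : x ≡ y [ZMOD (2 : ℕ)] := hx.trans (Int.mod_modEq _ _)
        have h2 : x % 2 = y % 2 := h1
        have h3 : y % 2 = 1 := hy
        omega

/-- **The answer to Q1 is negative.** There is a generalized Collatz mapping `T` of relatively prime
type with `T(ℤ) ≠ ℤ` for which the collection of the ergodic sets is finite; for the one given by
`T(x) = 2 ⌊x / 3⌋ + 1` the image is the set of the odd integers and the ergodic sets are exactly `ℤ`
and the set of the odd integers. -/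
theorem result : ∃ (d : ℕ) (m r : ℕ → ℤ), RelPrimeType d m r ∧ (∀ x, T d m r x = 2 * (x / 3) + 1) ∧
    Set.range (T d m r) = {x : ℤ | x % 2 = 1} ∧ Set.range (T d m r) ≠ Set.univ ∧
    ergodicSets d m r = {Set.univ, {x : ℤ | x % 2 = 1}} ∧ (ergodicSets d m r).Finite := by
  have hr : Set.range (T 3 m0 r0) = {x : ℤ | x % 2 = 1} := by
    ext y
    simp only [Set.mem_range, Set.mem_ofPred_eq]
    constructor
    · rintro ⟨x, rfl⟩
      rw [T_eq]; omega
    · intro hy
      exact ⟨3 * (y / 2), by rw [T_eq]; omega⟩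
  refine ⟨3, m0, r0, relPrime, T_eq, hr, ?_, ergodic_eq, ?_⟩
  · rw [hr]
    intro h
    have : (0 : ℤ) ∈ {x : ℤ | x % 2 = 1} := by rw [h]; trivial
    simp at this
  · rw [ergodic_eq]
    exact (Set.finite_singleton _).insert _

end Pool.Agent.Results.MP_c1c042_nt.FiniteNotSurjective
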